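import Mathlib
import Pool.Agent.H22R2.Main

set_option autoImplicit false

/-!
# Periodic algebras with non-periodic matrix rings

From a nil ideal `D` of an algebra `B` over the field with `p` elements and a non-nilpotent matrix
over `D` we get the periodic algebra `scal D` consisting of the sums of a scalar and an element
of `D`; its ring of matrices is not periodic.
-/

namespace Pool.Agent.R698

open Pool.Agent.H22R2

section gen

variable {B : Type*} [Ring B]

theorem mem_jac (D : TwoSidedIdeal B) (hD : ∀ d ∈ D, IsNilpotent d) (d : B) (hd : d ∈ D) :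
    d ∈ (⊥ : Ideal B).jacobson := by
  rw [Ideal.mem_jacobson_iff]
  intro y
  have h1 : IsNilpotent (y * d) := hD _ (D.mul_mem_left _ _ hd)
  obtain ⟨u, hu⟩ := h1.isUnit_one_add
  refine ⟨(↑u⁻¹ : B), ?_⟩
  rw [Ideal.mem_bot]
  have h2 : (↑u⁻¹ : B) * (1 + y * d) = 1 := by rw [← hu]; exact u.inv_mul
  rw [mul_add, mul_one, ← mul_assoc] at h2
  rw [add_comm, h2, sub_self]

theorem left_inv {n : ℕ} (D : TwoSidedIdeal B) (hD : ∀ d ∈ D, IsNilpotent d)
    (X : Matrix (Fin n) (Fin n) B) (hX : ∀ i j, X i j ∈ D) : ∃ Z, Z * (1 - X) = 1 := by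
  have h1 : X ∈ (⊥ : Ideal B).jacobson.matrix (Fin n) := by
    intro i j
    exact mem_jac D hD _ (hX i j)
  have h2 := Ideal.matrix_jacobson_le (n := Fin n) (⊥ : Ideal B) h1
  rw [Ideal.matrix_bot, Ideal.mem_jacobson_iff] at h2
  obtain ⟨Z, hZ⟩ := h2 (-1)
  refine ⟨Z, ?_⟩
  rw [Ideal.mem_bot] at hZ
  have : Z * (1 - X) = (Z * -1 * X + Z - 1) + 1 := by noncomm_ring
  rw [this, hZ, zero_add]

/-- a matrix over a nil ideal whose powers are not all different is nilpotent -/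
theorem nilp_of_pow_eq {n : ℕ} (D : TwoSidedIdeal B) (hD : ∀ d ∈ D, IsNilpotent d)
    (M : Matrix (Fin n) (Fin n) B) (hM : ∀ i j, M i j ∈ D) (m k : ℕ) (hk : k < m)
    (h : M ^ m = M ^ k) : IsNilpotent M := by
  obtain ⟨r, rfl⟩ : ∃ r, m = r + 1 + k := ⟨m - k - 1, by omega⟩
  have hpow : ∀ r i j, (M ^ (r + 1)) i j ∈ D := by
    intro r i j
    rw [pow_succ', Matrix.mul_apply]
    exact D.finsetSum_mem _ _ (fun l _ => D.mul_mem_right _ _ (hM i l))
  obtain ⟨Z, hZ⟩ := left_inv D hD (M ^ (r + 1)) (hpow r)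
  refine ⟨k, ?_⟩
  have h2 : (1 - M ^ (r + 1)) * M ^ k = 0 := by
    rw [sub_mul, one_mul, ← pow_add, h, sub_self]
  calc M ^ k = Z * (1 - M ^ (r + 1)) * M ^ k := by rw [hZ, one_mul]
    _ = 0 := by rw [mul_assoc, h2, mul_zero]

theorem isUnit_one_add_mat {n : ℕ} (D : TwoSidedIdeal B) (hD : ∀ d ∈ D, IsNilpotent d)
    (M : Matrix (Fin n) (Fin n) B) (hM : ∀ i j, M i j ∈ D) :
    ∃ Z : Matrix (Fin n) (Fin n) B, Z * (1 + M) = 1 ∧ (1 + M) * Z = 1 ∧
      ∃ Y : Matrix (Fin n) (Fin n) B, Z = 1 + Y ∧ ∀ i j, Y i j ∈ D := by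
  obtain ⟨Z, hZ⟩ := left_inv D hD (-M) (fun i j => D.neg_mem (hM i j))
  rw [sub_neg_eq_add] at hZ
  have h1 : Z = 1 - Z * M := by
    rw [mul_add, mul_one] at hZ
    rw [eq_sub_iff_add_eq, hZ]
  have h2 : ∀ i j, (Z * M) i j ∈ D := by
    intro i j
    rw [Matrix.mul_apply]
    exact D.finsetSum_mem _ _ (fun l _ => D.mul_mem_left _ _ (hM l j))
  obtain ⟨Z', hZ'⟩ := left_inv D hD (Z * M) h2
  rw [← h1] at hZ'
  have h3 : Z' = 1 + M := by
    calc Z' = Z' * (Z * (1 + M)) := by rw [hZ, mul_one]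
      _ = 1 + M := by rw [← mul_assoc, hZ', one_mul]
  refine ⟨Z, hZ, by rw [← h3]; exact hZ', -(Z * M), ?_, ?_⟩
  · rw [← sub_eq_add_neg]; exact h1
  · intro i j
    exact D.neg_mem (h2 i j)

end gen

section fin

variable {p : ℕ} [Fact p.Prime] {A : Type*} [Ring A] [Algebra (ZMod p) A]

/-- powers repeat in the algebra generated by an algebraic element over a finite prime field -/
theorem rep (x : A) (hx : IsIntegral (ZMod p) x) (y : A) (hy : y ∈ Algebra.adjoin (ZMod p) {x}) :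
    ∃ m k : ℕ, 1 ≤ k ∧ k < m ∧ y ^ m = y ^ k := by
  have h1 : (Subalgebra.toSubmodule (Algebra.adjoin (ZMod p) {x})).FG := hx.fg_adjoin_singleton
  have h2 : Module.Finite (ZMod p) (Subalgebra.toSubmodule (Algebra.adjoin (ZMod p) {x})) :=
    Module.Finite.iff_fg.2 h1
  have h3 : Finite (Algebra.adjoin (ZMod p) {x}) :=
    Module.finite_of_finite (ZMod p) (M := Subalgebra.toSubmodule (Algebra.adjoin (ZMod p) {x}))
  let f : ℕ → Algebra.adjoin (ZMod p) {x} := fun n => ⟨y, hy⟩ ^ (n + 1)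
  obtain ⟨a, b, hab, he⟩ := Finite.exists_ne_map_eq_of_infinite f
  have he' : y ^ (a + 1) = y ^ (b + 1) := by
    have := congrArg Subtype.val he
    simpa [f] using this
  rcases lt_or_gt_of_ne hab with h | h
  · exact ⟨b + 1, a + 1, by omega, by omega, he'.symm⟩
  · exact ⟨a + 1, b + 1, by omega, by omega, he'⟩

/-- the sums of a scalar and an element of `D` -/
def scal (D : TwoSidedIdeal A) : Subalgebra (ZMod p) A where
  carrier := {b | ∃ c : ZMod p, b - algebraMap (ZMod p) A c ∈ D}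
  mul_mem' := by
    rintro a b ⟨c, hc⟩ ⟨d, hd⟩
    refine ⟨c * d, ?_⟩
    have : a * b - algebraMap (ZMod p) A (c * d) = (a - algebraMap (ZMod p) A c) * b +
        algebraMap (ZMod p) A c * (b - algebraMap (ZMod p) A d) := by
      rw [map_mul]; noncomm_ring
    rw [this]
    exact D.add_mem (D.mul_mem_right _ _ hc) (D.mul_mem_left _ _ hd)
  add_mem' := by
    rintro a b ⟨c, hc⟩ ⟨d, hd⟩
    refine ⟨c + d, ?_⟩
    have : a + b - algebraMap (ZMod p) A (c + d) = (a - algebraMap (ZMod p) A c) +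
        (b - algebraMap (ZMod p) A d) := by
      rw [map_add]; abel
    rw [this]
    exact D.add_mem hc hd
  algebraMap_mem' := fun r => ⟨r, by rw [sub_self]; exact D.zero_mem⟩

theorem mem_scal (D : TwoSidedIdeal A) (b : A) :
    b ∈ scal (p := p) D ↔ ∃ c : ZMod p, b - algebraMap (ZMod p) A c ∈ D := Iff.rfl

theorem scal_of_mem (D : TwoSidedIdeal A) (b : A) (hb : b ∈ D) : b ∈ scal (p := p) D :=
  ⟨0, by rwa [map_zero, sub_zero]⟩

theorem scal_periodic (D : TwoSidedIdeal A) (hD : ∀ d ∈ D, IsNilpotent d)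
    (x : scal (p := p) D) : ∃ m k : ℕ, 1 ≤ k ∧ k < m ∧ x ^ m = x ^ k := by
  obtain ⟨x, hx⟩ := x
  obtain ⟨c, hc⟩ := (mem_scal D x).1 hx
  obtain ⟨n, hn⟩ := hD _ hc
  have hint : IsIntegral (ZMod p) x := by
    refine ⟨(Polynomial.X - Polynomial.C c) ^ n, (Polynomial.monic_X_sub_C c).pow n, ?_⟩
    rw [← Polynomial.aeval_def, map_pow, map_sub, Polynomial.aeval_X, Polynomial.aeval_C, hn]
  obtain ⟨m, k, h1, h2, h3⟩ := rep x hint x (Algebra.subset_adjoin rfl)
  exact ⟨m, k, h1, h2, Subtype.ext (by simpa using h3)⟩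

end fin

/-- For each prime `p` there are a ring `R` of characteristic `p` all of whose elements are sums
of a scalar and a nilpotent element of a nil ideal, and a non-nilpotent matrix over the ideal. -/
theorem exists_periodic (p : ℕ) [Fact p.Prime] :
    ∃ (R : Type) (_ : Ring R) (_ : Algebra (ZMod p) R) (D : TwoSidedIdeal R),
      (∀ x : R, ∃ m k : ℕ, 1 ≤ k ∧ k < m ∧ x ^ m = x ^ k) ∧ (∀ d ∈ D, IsNilpotent d) ∧
      ∃ M : Matrix (Fin 3) (Fin 3) R, (∀ i j, M i j ∈ D) ∧ ¬ IsNilpotent M := by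
  obtain ⟨B, _, _, D, hD, M, hM, hM'⟩ := exists_nil_ideal_matrix (ZMod p)
  let D' : TwoSidedIdeal (scal (p := p) D) := TwoSidedIdeal.comap (scal (p := p) D).val D
  refine ⟨scal (p := p) D, inferInstance, inferInstance, D', scal_periodic D hD, ?_, ?_⟩
  · intro d hd
    have h1 : (d : B) ∈ D := (TwoSidedIdeal.mem_comap _).1 hd
    obtain ⟨n, hn⟩ := hD _ h1
    exact ⟨n, Subtype.ext (by simpa using hn)⟩
  · refine ⟨Matrix.of fun i j => ⟨M i j, scal_of_mem D _ (hM i j)⟩, fun i j => ?_, ?_⟩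
    · exact (TwoSidedIdeal.mem_comap _).2 (hM i j)
    · intro h
      apply hM'
      have h2 := h.map (scal (p := p) D).val.mapMatrix
      have e : (scal (p := p) D).val.mapMatrix
          (Matrix.of fun i j => (⟨M i j, scal_of_mem D _ (hM i j)⟩ : scal (p := p) D)) = M := by
        ext i j
        rfl
      rw [e] at h2
      exact h2

end Pool.Agent.R698
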